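import Pool.Agent.Lib.MP_d80bfc_ag.Imm

open CategoryTheory AlgebraicGeometry Module Pool.Agent.Lib.MP_d80bfc_ag

theorem Pool.Agent.Results.MP_d80bfc_ag.Albanese.result :
    ∃ (X : Over (Spec (CommRingCat.of ℂ))) (n : ℕ) (ι : Type) (U : ι → X.left.Opens) (q : ℕ)
      (h : ℕ → ℕ),
      IsSmoothProjective X n ∧ IsFiniteAffineCover U ∧
      (Module.Finite ℂ (cechH U (structurePsh X) 1) ∧
        finrank ℂ (cechH U (structurePsh X) 1) = q) ∧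
      (∀ i, Module.Finite ℂ (cechH U (formPsh X n) i) ∧
        finrank ℂ (cechH U (formPsh X n) i) = h i) ∧
      (∀ i, n < i → h i = 0) ∧
      q = n + 1 ∧
      (h 0 : ℤ) - ((∑ i ∈ Finset.range (n + 1), (-1 : ℤ) ^ i * h i) + q - 1) > 0 ∧
      (∑ i ∈ Finset.range (n + 1), (-1 : ℤ) ^ i * h i) > 0 ∧
      (∃ (A : Over (Spec (CommRingCat.of ℂ))) (f : X ⟶ A),
        IsAbelianVariety A ∧ IsBirationalOntoImage f) ∧
      ∀ (A : Over (Spec (CommRingCat.of ℂ))) (a : X ⟶ A),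
        IsAlbanese a → IsBirationalOntoImage a := by
  obtain ⟨p, hp5, hp⟩ := bet_K_zero
  obtain ⟨f, U, hU, hf⟩ := exists_birational
  have hUS (c : Ch) : US {c} = UX c := by simp [US]
  have hK (i n : ℕ) (h : (MS 3 3).Bet i n) : Module.Finite ℂ (cechH UX (formPsh XV 3) i) ∧
      finrank ℂ (cechH UX (formPsh XV 3) i) = n := by
    obtain ⟨e⟩ := H_K_equiv i
    have := h.1
    exact ⟨Module.Finite.equiv e.symm, e.finrank_eq.trans h.2⟩
  refine ⟨XV, 3, Ch, UX, 4, fun i => Nat.casesOn i p fun j => hZ (j + 4),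
    ⟨XV_integral, XV_smooth, Sg, inferInstance, XI.exists_closedImmersion⟩,
    ⟨inferInstance, fun c => hUS c ▸ isAffineOpen_US (Set.singleton_nonempty c), iSup_UX⟩,
    ?_, ?_, ?_, rfl, ?_, ?_, ⟨AV, f, AV_abelian, U, hU, hf⟩, ?_⟩
  · obtain ⟨e⟩ := H_O_equiv 1
    have := bet_O_one.1
    exact ⟨Module.Finite.equiv e.symm, e.finrank_eq.trans bet_O_one.2⟩
  · rintro (_ | j)
    · exact hK 0 p hp
    · exact hK _ _ (bet_K_succ j)
  · rintro (_ | j) hj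
    · omega
    · obtain ⟨j, rfl⟩ : ∃ j', j = j' + 3 := ⟨j - 3, by omega⟩
      rfl
  · simp only [Finset.sum_range_succ, Finset.sum_range_zero]
    change (p : ℤ) - (0 + (-1) ^ 0 * (p : ℤ) + (-1) ^ 1 * ((7 : ℕ) : ℤ) + (-1) ^ 2 * ((4 : ℕ) : ℤ) +
      (-1) ^ 3 * ((1 : ℕ) : ℤ) + ((4 : ℕ) : ℤ) - 1) > 0
    push_cast
    omega
  · simp only [Finset.sum_range_succ, Finset.sum_range_zero]
    change 0 + (-1) ^ 0 * (p : ℤ) + (-1) ^ 1 * ((7 : ℕ) : ℤ) + (-1) ^ 2 * ((4 : ℕ) : ℤ) +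
      (-1) ^ 3 * ((1 : ℕ) : ℤ) > 0
    push_cast
    omega
  · rintro A a ⟨-, ha⟩
    obtain ⟨g, hg, -⟩ := ha AV f AV_abelian
    refine ⟨U, hU, ?_⟩
    have : IsImmersion ((U.ι ≫ a.left) ≫ g.left) := by
      rwa [Category.assoc, ← Over.comp_left, hg]
    exact IsImmersion.of_comp _ g.left
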